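import Pool.Agent.Helper19.HV.StC

/-!
# Project HV, module QCM: the complexes and the morphism of complexes
-/

set_option autoImplicit false

namespace Pool.Agent.Helper19.HV

noncomputable section

open PL

variable {F : Type} [Field F]

private theorem qcm_ext {X : Set (P1 F)} {k j : ℕ} {y z : ΓP F X k j}
    (h : ∀ x : X, ev k j y x = ev k j z x) : y = z := by
  apply Finsupp.ext
  intro x
  exact h x

private theorem qcm_ev_zero {X : Set (P1 F)} (k j : ℕ) (x : X) :
    ev k j (0 : ΓP F X k j) x = 0 := rfl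

private theorem qcm_ev_add {X : Set (P1 F)} (k j : ℕ) (y z : ΓP F X k j) (x : X) :
    ev k j (y + z) x = ev k j y x + ev k j z x := rfl

private theorem qcm_ev_sub {X : Set (P1 F)} (k j : ℕ) (y z : ΓP F X k j) (x : X) :
    ev k j (y - z) x = ev k j y x - ev k j z x := Finsupp.sub_apply _ _ _

private theorem qcm_ev_dP {X : Set (P1 F)} (d' : Dif F) (k j : ℕ) (y : ΓP F X (k + 1) j)
    (x : X) : ev k (j + 1) (dΓP X d' k j y) x = d' k j (ev (k + 1) j y x) := rfl

/-- The evaluation as a linear map. -/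
private def qcmE (X : Set (P1 F)) (k j : ℕ) (x : X) : ΓP F X k j →ₗ[ℚ] Γ F k j :=
  Finsupp.lapply x

private theorem qcmE_apply {X : Set (P1 F)} (k j : ℕ) (x : X) (y : ΓP F X k j) :
    qcmE X k j x y = ev k j y x := rfl

/-- The second component of the differential of the image of `io` is zero. -/
private theorem qcm_res {X : Set (P1 F)} (hX : none ∉ X) {d : Dif (RatFunc F)} {d' : Dif F}
    {r : Res F X} {c : ∀ k j : ℕ, Γ F k j →ₗ[ℚ] Γ (RatFunc F) k j}
    {m : ∀ (_ : F) (k j : ℕ), Γ F k j →ₗ[ℚ] Γ (RatFunc F) k (j + 1)}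
    (H : Rel d d' r c m) (k j : ℕ) (z : Γ F k (j + 1)) (y : Co X →₀ Γ F k j) :
    r k j (c k (j + 1) z + y.sum fun a y => m a.1 k j y) = 0 := by
  apply qcm_ext
  rintro ⟨x, hx⟩
  rw [map_add, qcm_ev_add, H.rc, zero_add, qcm_ev_zero]
  rcases x with _ | b
  · exact absurd hx hX
  rw [← qcmE_apply, ← LinearMap.comp_apply, map_finsuppSum]
  apply Finset.sum_eq_zero
  intro a _
  have hab : a.1 ≠ b := by
    intro h
    apply a.2
    rw [h]
    exact hx
  exact H.rm0 a.1 b hx hab k j (y a)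

/-- The first component of the differential of the image of `io`. -/
private theorem qcm_fst {X : Set (P1 F)} {d : Dif (RatFunc F)} {d' : Dif F}
    {r : Res F X} {c : ∀ k j : ℕ, Γ F k j →ₗ[ℚ] Γ (RatFunc F) k j}
    {m : ∀ (_ : F) (k j : ℕ), Γ F k j →ₗ[ℚ] Γ (RatFunc F) k (j + 1)}
    (H : Rel d d' r c m) (k j : ℕ) (z : Γ F (k + 1) (j + 1)) (y : Co X →₀ Γ F (k + 1) j) :
    (c k (j + 2) (d' k (j + 1) z) +
      (Finsupp.mapRange.linearMap (d' k j) y).sum fun a y => m a.1 k (j + 1) y) =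
      d k (j + 1) (c (k + 1) (j + 1) z + y.sum fun a y => m a.1 (k + 1) j y) := by
  rw [map_add, H.dc, map_finsuppSum, Finsupp.mapRange.linearMap_apply,
    Finsupp.sum_mapRange_index (fun a => map_zero _)]
  congr 1
  apply Finset.sum_congr rfl
  intro a _
  exact (H.dm a.1 k j (y a)).symm

theorem mQCM : sQCM := by
  intro F _ X hX d d' r c m H
  constructor
  · intro k j w
    rcases j with _ | _ | j
    · have h1 : d k 1 (d (k + 1) 0 w) = 0 := H.dd k 0 w
      have h2 : r (k + 1) 0 (d (k + 1) 0 w) = 0 := by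
        apply qcm_ext
        intro x
        rw [H.rd0 (k + 1) w x, qcm_ev_zero]
      exact Prod.ext h1 h2
    · have h1 : d k 2 (d (k + 1) 1 w) = 0 := H.dd k 1 w
      have h2 : r (k + 1) 1 (d (k + 1) 1 w) - dΓP X d' (k + 1) 0 (r (k + 2) 0 w) = 0 := by
        apply qcm_ext
        intro x
        rw [qcm_ev_sub, H.rd (k + 1) 0 w x, qcm_ev_dP, qcm_ev_zero, sub_self]
      exact Prod.ext h1 h2
    · have h1 : d k (j + 3) (d (k + 1) (j + 2) w.1) = 0 := H.dd k (j + 2) w.1
      have h2 : r (k + 1) (j + 2) (d (k + 1) (j + 2) w.1) - dΓP X d' (k + 1) (j + 1)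
          (r (k + 2) (j + 1) w.1 - dΓP X d' (k + 2) j w.2) = 0 := by
        apply qcm_ext
        intro x
        rw [qcm_ev_sub, H.rd (k + 1) (j + 1) w.1 x, qcm_ev_dP, qcm_ev_sub, qcm_ev_dP, map_sub,
          H.dd' (k + 1) j, qcm_ev_zero, sub_zero, sub_self]
      exact Prod.ext h1 h2
  · intro k j s
    rcases j with _ | _ | j
    · have h1 : ∀ z : Γ F (k + 1) 0, c k 1 (d' k 0 z) +
          (0 : Co X →₀ Γ F k 0).sum (fun a y => m a.1 k 0 y) = d k 0 (c (k + 1) 0 z) := by
        intro z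
        rw [Finsupp.sum_zero_index, add_zero, H.dc]
      exact h1 s
    · exact Prod.ext (qcm_fst H k 0 s.1 s.2) (qcm_res hX H (k + 1) 0 s.1 s.2).symm
    · have h2 : (0 : ΓP F X (k + 1) (j + 1)) =
          r (k + 1) (j + 1) (c (k + 1) (j + 2) s.1 +
            s.2.sum fun a y => m a.1 (k + 1) (j + 1) y) - dΓP X d' (k + 1) j 0 := by
        rw [qcm_res hX H (k + 1) (j + 1) s.1 s.2, map_zero, sub_zero]
      exact Prod.ext (qcm_fst H k (j + 1) s.1 s.2) h2

end

end Pool.Agent.Helper19.HV
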